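import Mathlib
import Pool.Agent.H.MP_fbe6c8_co.Data

namespace Pool.Agent.H.MP_fbe6c8_co

def eu (i : ℕ) : ℕ := (euT >>> (4 * i)) % 16
def ev (i : ℕ) : ℕ := (evT >>> (4 * i)) % 16
def rv (i : ℕ) : ℕ := (revT >>> (7 * i)) % 128
def tau (a i : ℕ) : ℕ := (tauT >>> (7 * (90 * a + i))) % 128
def sg (a c : ℕ) : ℕ := (sigT >>> (4 * (15 * a + c))) % 16
def cm (c : ℕ) : ℕ := (cmT >>> (6 * c)) % 64
def zz (x y : ℕ) : ℕ := (zT >>> (4 * (9 * x + y))) % 16

def force (n : ℕ) (k : ℕ → Bool) : Bool := Nat.casesOn n (k 0) (fun m => k (Nat.succ m))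

theorem force_eq (n : ℕ) (k : ℕ → Bool) : force n k = k n := by cases n <;> rfl

def one (mx my L R a b m : ℕ) : Bool :=
  !(Nat.beq a b) && (Nat.ble m 89 &&
    (mx.testBit (90 * tau a L + tau a m) && my.testBit (90 * tau b (rv m) + tau b R)))

def el (es i : ℕ) : ℕ := (es >>> (13 * i)) % 8192

def loop (mx my es w : ℕ) : ℕ → Bool
  | 0 => true
  | i + 1 => (force (el es i) fun e => force ((w >>> (12 * i)) % 4096) fun d =>
      one mx my (e / 90) (e % 90) (d % 5) (d / 5 % 5) (d / 25)) && loop mx my es w i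

def orAll (es : ℕ) : ℕ → ℕ
  | 0 => 0
  | i + 1 => 2 ^ el es i ||| orAll es i

theorem orAll_spec (es e : ℕ) : ∀ n, (orAll es n).testBit e = true → ∃ i < n, el es i = e := by
  intro n
  induction n with
  | zero => intro h; simp [orAll] at h
  | succ n ih =>
    intro h
    unfold orAll at h
    rw [Nat.testBit_or, Bool.or_eq_true] at h
    rcases h with h | h
    · rw [Nat.testBit_two_pow] at h
      exact ⟨n, Nat.lt_succ_self n, by simpa using h⟩
    · obtain ⟨i, hi, he⟩ := ih h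
      exact ⟨i, Nat.lt_succ_of_lt hi, he⟩

theorem mask_eq : ∀ k < 9, mask k = orAll (els k) (len k) := by decide +kernel

def chk (x y : ℕ) : Bool := force (mask x) fun mx => force (mask y) fun my =>
  force (els (zz x y)) fun es => force (wit x y) fun w => loop mx my es w (len (zz x y))

theorem loop_spec (mx my es w : ℕ) : ∀ n, loop mx my es w n = true →
    ∀ i < n, ∃ d, one mx my (el es i / 90) (el es i % 90) (d % 5) (d / 5 % 5) (d / 25) = true := by
  intro n
  induction n with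
  | zero => intro _ L h; omega
  | succ n ih =>
    intro h i hi
    unfold loop at h
    simp only [Bool.and_eq_true, force_eq] at h
    rcases Nat.lt_succ_iff_lt_or_eq.1 hi with h1 | rfl
    · exact ih h.2 i h1
    · exact ⟨_, h.1⟩

def chkRow (x : ℕ) : Bool := (List.range 9).all (chk x)

theorem c0 : chkRow 0 = true := by decide +kernel
theorem c1 : chkRow 1 = true := by decide +kernel
theorem c2 : chkRow 2 = true := by decide +kernel
theorem c3 : chkRow 3 = true := by decide +kernel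
theorem c4 : chkRow 4 = true := by decide +kernel
theorem c5 : chkRow 5 = true := by decide +kernel
theorem c6 : chkRow 6 = true := by decide +kernel
theorem c7 : chkRow 7 = true := by decide +kernel
theorem c8 : chkRow 8 = true := by decide +kernel

theorem call (x y : ℕ) (hx : x < 9) (hy : y < 9) : chk x y = true := by
  have h : chkRow x = true := by
    interval_cases x
    exacts [c0, c1, c2, c3, c4, c5, c6, c7, c8]
  unfold chkRow at h
  rw [List.all_eq_true] at h
  exact h y (List.mem_range.2 hy)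

theorem F6 : ∀ x < 9, ∀ y < 9, zz x y < 9 ∧ 1 ≤ zz x y ∧ (zz x y = 1 → x = 0 ∧ y = 0) := by
  decide +kernel

theorem step (x y : ℕ) (hx : x < 9) (hy : y < 9) (L R : ℕ) (_hL : L < 90) (hR : R < 90)
    (h : (mask (zz x y)).testBit (90 * L + R) = true) :
    ∃ a b m, a < 5 ∧ b < 5 ∧ a ≠ b ∧ m < 90 ∧
      (mask x).testBit (90 * tau a L + tau a m) = true ∧
      (mask y).testBit (90 * tau b (rv m) + tau b R) = true := by
  have hc := call x y hx hy
  unfold chk at hc
  simp only [force_eq] at hc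
  rw [mask_eq _ (F6 x hx y hy).1] at h
  obtain ⟨i, hi, he⟩ := orAll_spec _ _ _ h
  obtain ⟨d, hd⟩ := loop_spec _ _ _ _ _ hc i hi
  rw [he, show (90 * L + R) / 90 = L by omega, show (90 * L + R) % 90 = R by omega] at hd
  unfold one at hd
  simp only [Bool.and_eq_true, Bool.not_eq_true', Nat.ble_eq] at hd
  exact ⟨d % 5, d / 5 % 5, d / 25, Nat.mod_lt _ (by norm_num), Nat.mod_lt _ (by norm_num),
    Nat.ne_of_beq_eq_false hd.1, by omega, hd.2.2.1, hd.2.2.2⟩

/-- colour `w` with three neighbours coloured `a b c` -/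
def ok (w a b c : ℕ) : Prop :=
  w < 15 ∧ a < 15 ∧ b < 15 ∧ c < 15 ∧ cm w &&& cm a = 0 ∧ cm w &&& cm b = 0 ∧ cm w &&& cm c = 0 ∧
    a ≠ b ∧ a ≠ c ∧ b ≠ c

instance (w a b c : ℕ) : Decidable (ok w a b c) := by unfold ok; infer_instance

theorem F1 : ∀ a < 5, ∀ i < 90, sg a (eu (tau a i)) = eu i ∧ sg a (ev (tau a i)) = ev i ∧
    tau a i < 90 := by decide +kernel
theorem F2 : ∀ m < 90, eu (rv m) = ev m ∧ ev (rv m) = eu m ∧ rv m < 90 := by decide +kernel
theorem F3 : ∀ a < 5, sg a 5 = 0 := by decide +kernel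
theorem F4a : ∀ a < 5, ∀ u < 15, sg a u < 15 := by decide +kernel
theorem F4b : ∀ a < 5, ∀ u < 15, ∀ v < 15, u ≠ v → sg a u ≠ sg a v := by decide +kernel
theorem F4c : ∀ a < 5, ∀ u < 15, ∀ v < 15,
    cm u &&& cm v = 0 → cm (sg a u) &&& cm (sg a v) = 0 := by decide +kernel
theorem F4 : ∀ a < 5, ∀ u < 15, ∀ v < 15, sg a u < 15 ∧ (u ≠ v → sg a u ≠ sg a v) ∧
    (cm u &&& cm v = 0 → cm (sg a u) &&& cm (sg a v) = 0) :=
  fun a ha u hu v hv => ⟨F4a a ha u hu, F4b a ha u hu v hv, F4c a ha u hu v hv⟩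
theorem F5 : ∀ a < 5, ∀ b < 5, a ≠ b → ok 0 5 (sg a 0) (sg b 0) := by decide +kernel
theorem F7 : ∀ L < 90, ∀ R < 90, (mask 0).testBit (90 * L + R) = true →
    eu L = 0 ∧ eu R = 0 ∧ ok 0 5 (ev L) (ev R) := by decide +kernel
theorem F8 : ∀ k < 9, 2 ≤ k → ∃ L < 90, ∃ R < 90, (mask k).testBit (90 * L + R) = true ∧
    ev L = 5 ∧ ev R = 5 ∧ ok 5 0 (eu L) (eu R) := by
  intro k hk h2
  interval_cases k
  · exact ⟨44, by norm_num, 89, by norm_num, by decide +kernel⟩
  · exact ⟨89, by norm_num, 44, by norm_num, by decide +kernel⟩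
  · exact ⟨62, by norm_num, 68, by norm_num, by decide +kernel⟩
  · exact ⟨68, by norm_num, 89, by norm_num, by decide +kernel⟩
  · exact ⟨38, by norm_num, 62, by norm_num, by decide +kernel⟩
  · exact ⟨38, by norm_num, 62, by norm_num, by decide +kernel⟩
  · exact ⟨89, by norm_num, 68, by norm_num, by decide +kernel⟩

theorem ok_sg (s : ℕ) (hs : s < 5) {w a b c : ℕ} (h : ok w a b c) :
    ok (sg s w) (sg s a) (sg s b) (sg s c) := by
  obtain ⟨hw, ha, hb, hc, h1, h2, h3, h4, h5, h6⟩ := h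
  exact ⟨(F4 s hs w hw w hw).1, (F4 s hs a ha w hw).1, (F4 s hs b hb w hw).1, (F4 s hs c hc w hw).1,
    (F4 s hs w hw a ha).2.2 h1, (F4 s hs w hw b hb).2.2 h2, (F4 s hs w hw c hc).2.2 h3,
    (F4 s hs a ha b hb).2.1 h4, (F4 s hs a ha c hc).2.1 h5, (F4 s hs b hb c hc).2.1 h6⟩

def fs (c : ℕ) : Finset (Fin 6) := Finset.univ.filter fun i => (cm c).testBit i.1 = true

theorem F9 : ∀ u < 15, ∀ v < 15, (fs u).card = 2 ∧ (fs u ∩ fs v).card ≤ 2 ∧
    (u ≠ v → (fs u ∩ fs v).card ≤ 1) ∧ (cm u &&& cm v = 0 → (fs u ∩ fs v).card = 0) := by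
  decide +kernel

end Pool.Agent.H.MP_fbe6c8_co
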